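import Mathlib
import Pool.Agent.Helper52.RLatDefs
import Pool.Agent.Helper52.RLatFinal

/-!
A distributive r-lattice with the weak union condition that is not the lattice of ideals of any
commutative ring.

Sketch. The lattice consists of the ideals of a commutative monoid `S`. An element of `S` is a
function on the points of `(Option I)^4` with values in the lexicographic plane (with a zero),
the values being restricted to a submonoid depending on which coordinates of the point are
present, and the function being determined, through transition maps, by its values at the points
over a finite subset of `I`. If a ring `R` had the ideals of `S` as its lattice of ideals, then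
for elements `a_i` of `R` attached to the indices the ratios `x_ij = a_i / a_j` would satisfy
`x_01 x_12 = x_02`, `x_12 x_23 = x_13`, `x_02 x_23 = x_03` near a suitable point, whereas
`x_01 x_13 - x_03` would be a unit there; the indices are found by a free set argument.
-/

namespace Pool.Agent.Results.MP_173d24_al.NotRepresentable

open Pool.Agent.Helper52.RLat

theorem result.{v} : ∃ (L : Type) (_ : MulLattice L),
    IsRLattice L ∧ IsDistributive L ∧ WeakUnion L ∧
      ∀ (R : Type v) [CommRing R], ¬ RepresentedBy L R :=
  ⟨LL, inferInstance, isRLattice_ideal, isDistributive_ideal, weakUnion_ideal,
    fun _ _ => not_represented⟩

end Pool.Agent.Results.MP_173d24_al.NotRepresentable
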